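import Pool.Agent.H825R2.EW.PRatio

set_option autoImplicit false

/-!
Seymour's even circuit cover conjecture for weightings in which every edge weighs at most half of
its strength, and for weightings whose partitions have large folded weight.
-/

namespace Pool.Agent.Results.MP_20b97f_co.HalfStrength

open Finset
open Pool.Agent.H126R2.CDC (MGraph)
open Pool.Agent.H126R2.NC (InIntCone)
open Pool.Agent.H825R2.EW (cut cross)

/-- Let `p` be a weighting of the edges of a finite graph `G` by even nonnegative integers. A map
`c : V → ℕ` stands for the partition of a vertex set `W` into the classes of equal value, `cross G W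
c` for the set of the edges of `G[W]` joining different classes. Then `(G, p)` has a circuit cover
in each of the following cases.

* (half strength) Every edge `e` lies in a vertex set `W` such that every partition of `W` into `n`
  classes, without edges heavier than `e` between the classes, has total weight at least
  `2 p(e) (n - 1)` between the classes.
* (folded weights) `N` is nondecreasing, `p e ≤ 4 N(p e)` for every edge, and every edge `e` lies in
  a vertex set `W` such that, for `P = 4 N(p e)`, every partition of `W` into `n` classes without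
  edges heavier than `e` between the classes satisfies `∑ min (p f, P - p f) ≥ P (n - 1)`, the sum
  over the edges `f` between the classes.
* (bounded ratio) `l ≤ p ≤ h`, `l + h` is a multiple of four and every cut of `G` has at least
  `2 (l + h) / l` edges. -/
theorem result {V E : Type} [Fintype V] [DecidableEq V] [Fintype E] [DecidableEq E]
    (G : MGraph V E) (p : E → ℕ) (hev : ∀ e, Even (p e)) :
    ((∀ e, ∃ W : Finset V, (∀ v ∈ G.ends e, v ∈ W) ∧
        ∀ c : V → ℕ, (∀ f ∈ cross G W c, p f ≤ p e) →
          2 * p e * ((W.image c).card - 1) ≤ ∑ f ∈ cross G W c, p f) → InIntCone G p) ∧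
    (∀ N : ℕ → ℕ, Monotone N → (∀ e, p e ≤ 4 * N (p e)) →
      (∀ e, ∃ W : Finset V, (∀ v ∈ G.ends e, v ∈ W) ∧
        ∀ c : V → ℕ, (∀ f ∈ cross G W c, p f ≤ p e) →
          4 * N (p e) * ((W.image c).card - 1) ≤
            ∑ f ∈ cross G W c, min (p f) (4 * N (p e) - p f)) → InIntCone G p) ∧
    (∀ l h : ℕ, (∀ e, l ≤ p e ∧ p e ≤ h) → 4 ∣ l + h →
      (∀ X : Finset V, X.Nonempty → X ≠ univ → 2 * (l + h) ≤ l * (cut G univ X).card) →
      InIntCone G p) := by
  refine ⟨?_, ?_, ?_⟩
  · intro h
    apply Pool.Agent.H825R2.EW.cover_parts G p hev (fun m => m / 2)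
      (fun m n hmn => Nat.div_le_div_right hmn)
    · intro e
      obtain ⟨k, hk⟩ := hev e
      show p e ≤ 4 * (p e / 2)
      omega
    · intro e
      obtain ⟨W, h1, h2⟩ := h e
      refine ⟨W, h1, fun c hc => ?_⟩
      obtain ⟨k, hk⟩ := hev e
      have h3 : 4 * (p e / 2) = 2 * p e := by omega
      show 4 * (p e / 2) * ((W.image c).card - 1) ≤
        ∑ f ∈ cross G W c, min (p f) (4 * (p e / 2) - p f)
      rw [h3]
      refine le_trans (h2 c hc) (le_of_eq (Finset.sum_congr rfl ?_))
      intro f hf
      have h4 := hc f hf
      omega
  · intro N hN1 hN2 h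
    exact Pool.Agent.H825R2.EW.cover_parts G p hev N hN1 hN2 h
  · intro l h hlh h4 hcon
    exact Pool.Agent.H825R2.EW.cover_ratio G p hev l h (fun e => (hlh e).1) (fun e => (hlh e).2)
      h4 hcon

end Pool.Agent.Results.MP_20b97f_co.HalfStrength
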