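import Pool.Agent.H825R2.EW.Final

set_option autoImplicit false

/-!
Seymour's even circuit cover conjecture for weightings in which every edge is light compared with
its strength, or is well covered by edges that are at least as heavy.
-/

namespace Pool.Agent.Results.MP_20b97f_co.LightEdges

open Pool.Agent.H126R2.CDC (MGraph)
open Pool.Agent.H825R2.EW (cut)

/-- Let `p` be a weighting of the edges of a finite graph `G` by even nonnegative integers. Suppose
that every edge `e` lies in a vertex set `W` such that

* every cut of `G[W]` without edges heavier than `e` has total weight at least `4 p(e)`, or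
* every cut of `G[W]` without edges heavier than `e` has at least two edges of weight `p(e)`.

Then `(G, p)` has a circuit cover. -/
theorem result {V E : Type} [Fintype V] [DecidableEq V] [Fintype E] [DecidableEq E]
    (G : MGraph V E) (p : E → ℕ) (hev : ∀ e, Even (p e))
    (hlight : ∀ e, ∃ W : Finset V, (∀ v ∈ G.ends e, v ∈ W) ∧
      ((∀ X ⊆ W, X.Nonempty → X ≠ W → (∀ f ∈ cut G W X, p f ≤ p e) →
          4 * p e ≤ ∑ f ∈ cut G W X, p f) ∨
        (∀ X ⊆ W, X.Nonempty → X ≠ W → (∀ f ∈ cut G W X, p f ≤ p e) →
          2 ≤ ((cut G W X).filter (fun f => p f = p e)).card))) :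
    ∃ F : Multiset (Finset E), (∀ C ∈ F, G.IsCircuit C) ∧
      ∀ e, F.countP (fun C => e ∈ C) = p e :=
  Pool.Agent.H825R2.EW.cover_light G p hev hlight

end Pool.Agent.Results.MP_20b97f_co.LightEdges
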